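import Mathlib

open Filter Topology MeasureTheory Complex
open scoped ComplexConjugate ENNReal

namespace Pool.Agent.Y285.TB

/-- The open upper half-plane. -/
def upperHalf : Set ℂ := {z | 0 < z.im}

/-- `f` is of bounded type in the upper half-plane: it is a quotient `p / q` of two bounded
holomorphic functions there (`q` not identically zero). -/
def BoundedType (f : ℂ → ℂ) : Prop :=
  ∃ p q : ℂ → ℂ, DifferentiableOn ℂ p upperHalf ∧ DifferentiableOn ℂ q upperHalf ∧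
    (∃ C : ℝ, ∀ z ∈ upperHalf, ‖p z‖ ≤ C) ∧ (∃ C : ℝ, ∀ z ∈ upperHalf, ‖q z‖ ≤ C) ∧
    (∃ z ∈ upperHalf, q z ≠ 0) ∧ ∀ z ∈ upperHalf, f z * q z = p z

/-- The mean type `limsup_{y → +∞} y⁻¹ log |f(iy)|`, with `log 0 = -∞`. -/
noncomputable def meanType (f : ℂ → ℂ) : EReal :=
  limsup (fun y : ℝ => ((y⁻¹ : ℝ) : EReal) * ENNReal.log ‖f (y * I)‖ₑ) atTop

/-- `F^*(z) = conj (F (conj z))`. -/
noncomputable def star' (F : ℂ → ℂ) (z : ℂ) : ℂ := conj (F (conj z))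

/-- The square of the norm of the de Branges space of `E`. -/
noncomputable def normSq (E F : ℂ → ℂ) : ℝ≥0∞ := ∫⁻ t : ℝ, ‖F t / E t‖ₑ ^ 2

/-- Membership in the de Branges space `H(E)`. -/
def InH (E F : ℂ → ℂ) : Prop :=
  Differentiable ℂ F ∧ normSq E F < ⊤ ∧
    BoundedType (fun z => F z / E z) ∧ meanType (fun z => F z / E z) ≤ 0 ∧
    BoundedType (fun z => star' F z / E z) ∧ meanType (fun z => star' F z / E z) ≤ 0

/-- The translation group acts continuously on `H(E)`. -/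
def TranslationsActContinuously (E : ℂ → ℂ) : Prop :=
  (∀ f : ℂ → ℂ, InH E f → ∀ z : ℂ, InH E (fun ζ => f (ζ + z))) ∧
  (∀ f : ℂ → ℂ, InH E f → ∀ z₀ : ℂ,
    Tendsto (fun z : ℂ => normSq E (fun ζ => f (ζ + z) - f (ζ + z₀))) (𝓝 z₀) (𝓝 0))

/-- Finite exponential type. -/
def FiniteExponentialType (E : ℂ → ℂ) : Prop :=
  ∃ A B : ℝ, ∀ z : ℂ, ‖E z‖ ≤ A * Real.exp (B * ‖z‖)

end Pool.Agent.Y285.TB
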