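import Pool.Agent.Y285.TB.Def

open Filter Topology MeasureTheory Complex
open scoped ComplexConjugate ENNReal

namespace Pool.Agent.Y285.TB

/-- Sparse positions. -/
structure IsSp (a : ℕ → ℝ) : Prop where
  ge : ∀ n, (4 : ℝ) ^ n ≤ a n
  four : ∀ n, 4 * a n ≤ a (n + 1)

/-- The points `a n - i (k+1)`. -/
noncomputable def root (a : ℕ → ℝ) (n k : ℕ) : ℂ := ⟨a n, -(k + 1)⟩

/-- The finite block of factors. -/
noncomputable def blk (a : ℕ → ℝ) (S : ℕ → Finset ℕ) (n : ℕ) (z : ℂ) : ℂ :=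
  ∏ k ∈ S n, (1 + -(z / root a n k))

/-- The infinite product. -/
noncomputable def g (a : ℕ → ℝ) (S : ℕ → Finset ℕ) (z : ℂ) : ℂ := ∏' n, blk a S n z

/-- Admissible index sets. -/
def Adm (S : ℕ → Finset ℕ) : Prop := ∀ n, S n ⊆ Finset.range (2 ^ n)

/-- all roots -/
def full : ℕ → Finset ℕ := fun n => Finset.range (2 ^ n)

/-- all roots but the first one of block `m` -/
def cut (m : ℕ) : ℕ → Finset ℕ := fun n =>
  if n = m then (Finset.range (2 ^ n)).erase 0 else Finset.range (2 ^ n)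

lemma adm_full : Adm full := fun _ => Finset.Subset.refl _

lemma adm_cut (m : ℕ) : Adm (cut m) := by
  intro n
  unfold cut
  split_ifs
  · exact Finset.erase_subset _ _
  · exact Finset.Subset.refl _

variable {a : ℕ → ℝ} {S : ℕ → Finset ℕ}

lemma IsSp.pos (ha : IsSp a) (n : ℕ) : 0 < a n := lt_of_lt_of_le (by positivity) (ha.ge n)

lemma IsSp.one_le (ha : IsSp a) (n : ℕ) : 1 ≤ a n := (one_le_pow₀ (by norm_num)).trans (ha.ge n)

lemma root_norm_ge (ha : IsSp a) (n k : ℕ) : a n ≤ ‖root a n k‖ := by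
  have := Complex.abs_re_le_norm (root a n k)
  have h2 := ha.pos n
  simpa [root, abs_of_pos h2] using this

lemma root_ne (ha : IsSp a) (n k : ℕ) : root a n k ≠ 0 := by
  have h := root_norm_ge ha n k
  have h4 := ha.pos n
  intro h0
  rw [h0, norm_zero] at h
  linarith

lemma normSq_sub_root (n k : ℕ) (z : ℂ) :
    ‖z - root a n k‖ ^ 2 = (z.re - a n) ^ 2 + (z.im + (k + 1)) ^ 2 := by
  rw [← Complex.normSq_eq_norm_sq, Complex.normSq_apply]
  simp [root]
  ring

lemma factor_eq (ha : IsSp a) (n k : ℕ) (z : ℂ) :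
    1 + -(z / root a n k) = -(z - root a n k) / root a n k := by
  have := root_ne ha n k
  field_simp
  ring

lemma norm_factor (ha : IsSp a) (n k : ℕ) (z : ℂ) :
    ‖1 + -(z / root a n k)‖ = ‖z - root a n k‖ / ‖root a n k‖ := by
  rw [factor_eq ha, norm_div, norm_neg]

lemma sum_norm_le' (ha : IsSp a) (hS : Adm S) (n : ℕ) (z : ℂ) :
    ∑ k ∈ S n, ‖-(z / root a n k)‖ ≤ 2 ^ n * (‖z‖ / a n) := by
  calc ∑ k ∈ S n, ‖-(z / root a n k)‖
      ≤ ∑ k ∈ S n, ‖z‖ / a n := by
        apply Finset.sum_le_sum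
        intro k _
        rw [norm_neg, norm_div]
        exact div_le_div_of_nonneg_left (norm_nonneg _) (ha.pos n) (root_norm_ge ha n k)
    _ = (S n).card * (‖z‖ / a n) := by
        rw [Finset.sum_const, nsmul_eq_mul]
    _ ≤ 2 ^ n * (‖z‖ / a n) := by
        have h1 : ((S n).card : ℝ) ≤ 2 ^ n := by
          have := Finset.card_le_card (hS n)
          rw [Finset.card_range] at this
          exact_mod_cast this
        have h2 := ha.pos n
        have h3 : 0 ≤ ‖z‖ / a n := by positivity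
        exact mul_le_mul_of_nonneg_right h1 h3

lemma sum_norm_le (ha : IsSp a) (hS : Adm S) (n : ℕ) (z : ℂ) :
    ∑ k ∈ S n, ‖-(z / root a n k)‖ ≤ ‖z‖ / 2 ^ n := by
  refine (sum_norm_le' ha hS n z).trans ?_
  have h4 : (4 : ℝ) ^ n = 2 ^ n * 2 ^ n := by rw [← mul_pow]; norm_num
  have h0 : (0 : ℝ) < 2 ^ n := by positivity
  have h1 := ha.ge n
  have h2 := ha.pos n
  rw [← mul_div_assoc, div_le_div_iff₀ h2 h0]
  have h3 : 0 ≤ ‖z‖ := norm_nonneg _
  calc 2 ^ n * ‖z‖ * 2 ^ n = ‖z‖ * (2 ^ n * 2 ^ n) := by ring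
    _ ≤ ‖z‖ * a n := by rw [← h4]; exact mul_le_mul_of_nonneg_left h1 h3

lemma blk_sub_one_le (ha : IsSp a) (hS : Adm S) (n : ℕ) (z : ℂ) :
    ‖blk a S n z - 1‖ ≤ ‖z‖ * Real.exp ‖z‖ / 2 ^ n := by
  have h1 := Finset.norm_prod_one_add_sub_one_le (S n) (fun k => -(z / root a n k))
  have h2 := sum_norm_le ha hS n z
  set x : ℝ := ‖z‖ / 2 ^ n with hx
  have hx0 : 0 ≤ x := by positivity
  have hxz : x ≤ ‖z‖ := by
    rw [hx]
    apply div_le_self (norm_nonneg _)
    exact one_le_pow₀ (by norm_num)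
  have h3 : Real.exp x - 1 ≤ x * Real.exp x := by
    have := Real.add_one_le_exp (-x)
    have h5 : Real.exp (-x) * Real.exp x = 1 := by rw [← Real.exp_add]; simp
    nlinarith [Real.exp_pos x]
  calc ‖blk a S n z - 1‖ ≤ Real.exp (∑ k ∈ S n, ‖-(z / root a n k)‖) - 1 := h1
    _ ≤ Real.exp x - 1 := by
        have := Real.exp_le_exp.mpr h2
        linarith
    _ ≤ x * Real.exp x := h3
    _ ≤ x * Real.exp ‖z‖ := by
        apply mul_le_mul_of_nonneg_left _ hx0
        exact Real.exp_le_exp.mpr hxz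
    _ = ‖z‖ * Real.exp ‖z‖ / 2 ^ n := by rw [hx]; ring

lemma blk_differentiable (n : ℕ) : Differentiable ℂ (blk a S n) := by
  unfold blk
  apply Differentiable.fun_finsetProd
  intro k _
  fun_prop

lemma summable_bound (R : ℝ) : Summable (fun n : ℕ => R * Real.exp R / 2 ^ n) := by
  have : Summable (fun n : ℕ => (R * Real.exp R) * ((1 / 2 : ℝ)) ^ n) :=
    (summable_geometric_of_lt_one (by norm_num) (by norm_num)).mul_left _
  refine this.congr ?_
  intro n
  rw [one_div, inv_pow]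
  rfl

lemma blk_sub_one_summable (ha : IsSp a) (hS : Adm S) (z : ℂ) :
    Summable (fun n => ‖blk a S n z - 1‖) :=
  Summable.of_nonneg_of_le (fun _ => norm_nonneg _) (fun n => blk_sub_one_le ha hS n z)
    (summable_bound ‖z‖)

lemma g_hasProd (ha : IsSp a) (hS : Adm S) (z : ℂ) : HasProd (fun n => blk a S n z) (g a S z) := by
  have h := multipliable_one_add_of_summable (blk_sub_one_summable ha hS z)
  have h2 : Multipliable (fun n => blk a S n z) := by
    refine h.congr ?_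
    intro n; ring
  exact h2.hasProd

lemma g_tendsto (ha : IsSp a) (hS : Adm S) (z : ℂ) :
    Tendsto (fun N => ∏ n ∈ Finset.range N, blk a S n z) atTop (𝓝 (g a S z)) :=
  (g_hasProd ha hS z).tendsto_prod_nat

lemma g_differentiable (ha : IsSp a) (hS : Adm S) : Differentiable ℂ (g a S) := by
  have key : TendstoLocallyUniformlyOn (fun (s : Finset ℕ) z => ∏ n ∈ s, blk a S n z) (g a S) atTop
      Set.univ := by
    have h : HasProdLocallyUniformlyOn (fun n z => 1 + (blk a S n z - 1))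
        (fun z => ∏' n, (1 + (blk a S n z - 1))) Set.univ := by
      apply hasProdLocallyUniformlyOn_of_forall_compact isOpen_univ
      intro K _ hK
      obtain ⟨R, hR⟩ := hK.isBounded.exists_norm_le
      apply Summable.hasProdUniformlyOn_nat_one_add hK (summable_bound (max R 0))
      · filter_upwards with n z hz
        refine (blk_sub_one_le ha hS n z).trans ?_
        have h1 : ‖z‖ ≤ max R 0 := (hR z hz).trans (le_max_left _ _)
        have h2 : (0 : ℝ) ≤ max R 0 := le_max_right _ _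
        gcongr
      · intro n
        exact ((blk_differentiable n).continuous.sub continuous_const).continuousOn
    have h' := hasProdLocallyUniformlyOn_iff_tendstoLocallyUniformlyOn.mp h
    refine (h'.congr ?_).congr_right ?_
    · intro s z _
      simp
    · intro z _
      simp [g]
  have h2 := key.differentiableOn (Eventually.of_forall ?_) isOpen_univ
  · exact differentiableOn_univ.mp h2
  · intro s
    exact (Differentiable.fun_finsetProd (fun n _ => blk_differentiable n)).differentiableOn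

lemma norm_blk (ha : IsSp a) (n : ℕ) (z : ℂ) :
    ‖blk a S n z‖ = ∏ k ∈ S n, (‖z - root a n k‖ / ‖root a n k‖) := by
  unfold blk
  rw [norm_prod]
  exact Finset.prod_congr rfl (fun k _ => norm_factor ha n k z)

lemma norm_blk_le (ha : IsSp a) (n : ℕ) (z w : ℂ) (h : ∀ k, ‖z - root a n k‖ ≤ ‖w - root a n k‖) :
    ‖blk a S n z‖ ≤ ‖blk a S n w‖ := by
  rw [norm_blk ha, norm_blk ha]
  apply Finset.prod_le_prod
  · intro k _; positivity
  · intro k _
    exact div_le_div_of_nonneg_right (h k) (norm_nonneg _)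

lemma sub_root_ne (n k : ℕ) (z : ℂ) (hz : 0 ≤ z.im) : z - root a n k ≠ 0 := by
  intro h0
  have h1 : z = root a n k := sub_eq_zero.mp h0
  rw [h1] at hz
  simp [root] at hz
  have : (0 : ℝ) ≤ k := Nat.cast_nonneg k
  linarith

lemma blk_ne_zero (ha : IsSp a) (n : ℕ) (z : ℂ) (hz : 0 ≤ z.im) : blk a S n z ≠ 0 := by
  unfold blk
  rw [Finset.prod_ne_zero_iff]
  intro k _
  rw [factor_eq ha]
  exact div_ne_zero (neg_ne_zero.2 (sub_root_ne n k z hz)) (root_ne ha n k)

lemma g_ne_zero (ha : IsSp a) (hS : Adm S) (z : ℂ) (hz : 0 ≤ z.im) : g a S z ≠ 0 := by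
  have h := tprod_one_add_ne_zero_of_summable (R := ℂ) (f := fun n => blk a S n z - 1)
    (fun n => by
      have := blk_ne_zero (S := S) ha n z hz
      simpa using this) (blk_sub_one_summable ha hS z)
  simpa [g] using h

lemma g_norm_tendsto (ha : IsSp a) (hS : Adm S) (z : ℂ) :
    Tendsto (fun N => ∏ n ∈ Finset.range N, ‖blk a S n z‖) atTop (𝓝 ‖g a S z‖) := by
  have := (g_tendsto ha hS z).norm
  simpa [norm_prod] using this

lemma g_norm_le_of (ha : IsSp a) (hS : Adm S) (z w : ℂ)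
    (h : ∀ n k, ‖z - root a n k‖ ≤ ‖w - root a n k‖) : ‖g a S z‖ ≤ ‖g a S w‖ := by
  refine le_of_tendsto_of_tendsto' (g_norm_tendsto ha hS z) (g_norm_tendsto ha hS w) ?_
  intro N
  apply Finset.prod_le_prod
  · intro n _; positivity
  · intro n _; exact norm_blk_le ha n z w (h n)

lemma dist_root_le_of (n k : ℕ) (z w : ℂ) (hre : z.re = w.re)
    (him : |z.im + (k + 1)| ≤ |w.im + (k + 1)|) : ‖z - root a n k‖ ≤ ‖w - root a n k‖ := by
  apply le_of_sq_le_sq _ (norm_nonneg _)
  rw [normSq_sub_root, normSq_sub_root, hre]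
  have := sq_le_sq.mpr him
  linarith

lemma g_conj_le (ha : IsSp a) (hS : Adm S) (z : ℂ) (hz : 0 < z.im) :
    ‖g a S (conj z)‖ ≤ ‖g a S z‖ := by
  apply g_norm_le_of ha hS
  intro n k
  apply dist_root_le_of
  · simp
  · simp only [conj_im]
    have hk : (0 : ℝ) ≤ k := Nat.cast_nonneg k
    rw [abs_of_pos (show (0 : ℝ) < z.im + (k + 1) by linarith)]
    rw [abs_le]
    constructor <;> linarith

lemma norm_blk_exp (ha : IsSp a) (hS : Adm S) (n : ℕ) (z : ℂ) :
    ‖blk a S n z‖ ≤ Real.exp (∑ k ∈ S n, ‖-(z / root a n k)‖) := by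
  calc ‖blk a S n z‖ ≤ ∏ k ∈ S n, Real.exp ‖-(z / root a n k)‖ := by
        unfold blk
        rw [norm_prod]
        apply Finset.prod_le_prod
        · intro k _; positivity
        · intro k _
          refine (norm_add_le _ _).trans ?_
          rw [norm_one, add_comm]
          exact Real.add_one_le_exp _
    _ = Real.exp (∑ k ∈ S n, ‖-(z / root a n k)‖) := by
        rw [Real.exp_sum]

lemma geom_half_le (N : ℕ) : ∑ n ∈ Finset.range N, (1 / 2 : ℝ) ^ n ≤ 2 := by
  have h : ∑ n ∈ Finset.range N, (1 / 2 : ℝ) ^ n = 2 - 2 * (1 / 2) ^ N := by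
    induction N with
    | zero => simp
    | succ N ih =>
      rw [Finset.sum_range_succ, ih, pow_succ]
      ring
  rw [h]
  have : (0 : ℝ) ≤ (1 / 2) ^ N := by positivity
  linarith

lemma g_le_of_blk (ha : IsSp a) (hS : Adm S) (z : ℂ) {C : ℝ} (hC : 0 ≤ C)
    (h : ∀ n, ‖blk a S n z‖ ≤ Real.exp (C * (1 / 2) ^ n)) : ‖g a S z‖ ≤ Real.exp (2 * C) := by
  refine le_of_tendsto' (g_norm_tendsto ha hS z) ?_
  intro N
  calc ∏ n ∈ Finset.range N, ‖blk a S n z‖ ≤ ∏ n ∈ Finset.range N, Real.exp (C * (1 / 2) ^ n) := by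
        apply Finset.prod_le_prod
        · intro n _; positivity
        · intro n _; exact h n
    _ = Real.exp (∑ n ∈ Finset.range N, C * (1 / 2) ^ n) := by rw [Real.exp_sum]
    _ ≤ Real.exp (2 * C) := by
        apply Real.exp_le_exp.mpr
        rw [← Finset.mul_sum, mul_comm 2]
        exact mul_le_mul_of_nonneg_left (geom_half_le N) hC

lemma g_growth (ha : IsSp a) (hS : Adm S) (z : ℂ) : ‖g a S z‖ ≤ Real.exp (2 * ‖z‖) := by
  refine g_le_of_blk ha hS z (norm_nonneg z) fun n => (norm_blk_exp ha hS n z).trans ?_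
  apply Real.exp_le_exp.mpr
  refine (sum_norm_le ha hS n z).trans (le_of_eq ?_)
  rw [one_div, inv_pow]; rfl

/-- growth between `a m` and `a (m+1)` -/
lemma g_slow (ha : IsSp a) (hS : Adm S) (m : ℕ) (z : ℂ) (h2 : ‖z‖ ≤ a (m + 1)) :
    ‖g a S z‖ ≤ Real.exp (2 * (4 ^ m * (Real.log (1 + ‖z‖) + 4))) := by
  have hz := norm_nonneg z
  have hL : 0 ≤ Real.log (1 + ‖z‖) := Real.log_nonneg (by linarith)
  refine g_le_of_blk ha hS z (by positivity) fun n => ?_
  rcases Nat.lt_or_ge m n with h | h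
  · refine (norm_blk_exp ha hS n z).trans (Real.exp_le_exp.mpr ?_)
    refine (sum_norm_le' ha hS n z).trans ?_
    have hmono : ∀ j : ℕ, 4 ^ j * a (m + 1) ≤ a (m + 1 + j) := by
      intro j
      induction j with
      | zero => simp
      | succ j ih =>
        have := ha.four (m + 1 + j)
        rw [pow_succ]
        have e : m + 1 + (j + 1) = m + 1 + j + 1 := by ring
        rw [e]
        nlinarith
    obtain ⟨j, rfl⟩ : ∃ j, n = m + 1 + j := ⟨n - (m + 1), by omega⟩
    have h3 : ‖z‖ / a (m + 1 + j) ≤ 1 / 4 ^ j := by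
      rw [div_le_div_iff₀ (ha.pos _) (by positivity)]
      have := hmono j
      have h4 : (0:ℝ) < 4 ^ j := by positivity
      nlinarith
    calc (2:ℝ) ^ (m + 1 + j) * (‖z‖ / a (m + 1 + j)) ≤ 2 ^ (m + 1 + j) * (1 / 4 ^ j) := by gcongr
      _ = 4 ^ m * 4 * (1 / 2) ^ (m + 1 + j) := by
        have e4 : (4:ℝ) ^ j = 2 ^ j * 2 ^ j := by rw [← mul_pow]; norm_num
        have e5 : (4:ℝ) ^ m = 2 ^ m * 2 ^ m := by rw [← mul_pow]; norm_num
        have e6 : ∀ i : ℕ, ((1:ℝ) / 2) ^ i = 1 / 2 ^ i := fun i => one_div_pow _ _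
        rw [e4, e5, e6, pow_add, pow_add]
        field_simp
        norm_num
      _ ≤ 4 ^ m * (Real.log (1 + ‖z‖) + 4) * (1 / 2) ^ (m + 1 + j) := by
        gcongr
        linarith
  · have h3 : ‖blk a S n z‖ ≤ (1 + ‖z‖) ^ (2 ^ n) := by
      unfold blk
      rw [norm_prod]
      calc ∏ k ∈ S n, ‖1 + -(z / root a n k)‖ ≤ ∏ _k ∈ S n, (1 + ‖z‖) := by
            apply Finset.prod_le_prod
            · intro k _; positivity
            · intro k _
              refine (norm_add_le _ _).trans ?_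
              rw [norm_one, norm_neg, norm_div]
              have h5 : 1 ≤ ‖root a n k‖ := (ha.one_le n).trans (root_norm_ge ha n k)
              have := div_le_self hz h5
              linarith
        _ = (1 + ‖z‖) ^ (S n).card := by rw [Finset.prod_const]
        _ ≤ (1 + ‖z‖) ^ (2 ^ n) := by
            apply pow_le_pow_right₀ (by linarith)
            have := Finset.card_le_card (hS n)
            rwa [Finset.card_range] at this
    refine h3.trans ?_
    have h4 : (1 + ‖z‖) ^ (2 ^ n) = Real.exp (2 ^ n * Real.log (1 + ‖z‖)) := by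
      rw [← Real.exp_log (show 0 < 1 + ‖z‖ by linarith), ← Real.exp_nat_mul, Real.log_exp]
      push_cast; rfl
    rw [h4]
    apply Real.exp_le_exp.mpr
    have h5 : (2:ℝ) ^ n ≤ 4 ^ m * (1 / 2) ^ n := by
      have e5 : (4:ℝ) ^ n = 2 ^ n * 2 ^ n := by rw [← mul_pow]; norm_num
      have e6 : (4:ℝ) ^ n ≤ 4 ^ m := pow_le_pow_right₀ (by norm_num) h
      rw [one_div_pow, mul_one_div, le_div_iff₀ (by positivity), ← e5]
      exact e6
    calc (2:ℝ) ^ n * Real.log (1 + ‖z‖) ≤ 4 ^ m * (1 / 2) ^ n * (Real.log (1 + ‖z‖) + 4) := by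
          gcongr
          linarith
      _ = _ := by ring

/-- One factor of the translation estimate. -/
lemma factor_shift (s x : ℝ) (k : ℕ) :
    ((s + x) ^ 2 + ((k : ℝ) + 1) ^ 2) ≤
      Real.exp (4 * (2 * |x| + x ^ 2) * (|s| + 1) *
        (1 / (|s| + k + 1) - 1 / (|s| + k + 2))) * (s ^ 2 + ((k : ℝ) + 1) ^ 2) := by
  have hk : (0 : ℝ) ≤ k := Nat.cast_nonneg k
  have hs := abs_nonneg s
  have hx := abs_nonneg x
  have hss : s ^ 2 = |s| ^ 2 := (sq_abs s).symm
  set a := |s| with ha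
  set c := 2 * |x| + x ^ 2 with hc
  have hc0 : 0 ≤ c := by positivity
  have hD : 0 < s ^ 2 + ((k : ℝ) + 1) ^ 2 := by positivity
  have hid : 1 / (a + k + 1) - 1 / (a + k + 2) = 1 / ((a + k + 1) * (a + k + 2)) := by
    field_simp
    ring
  rw [hid]
  set T := 4 * c * (a + 1) * (1 / ((a + k + 1) * (a + k + 2))) with hT
  have h1 : T + 1 ≤ Real.exp T := Real.add_one_le_exp T
  have h2 : (s + x) ^ 2 + ((k : ℝ) + 1) ^ 2 ≤ (T + 1) * (s ^ 2 + ((k : ℝ) + 1) ^ 2) := by
    have h3 : 2 * s * x + x ^ 2 ≤ c * (a + 1) := by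
      have : s * x ≤ a * |x| := by rw [ha, ← abs_mul]; exact le_abs_self _
      rw [hc]
      nlinarith [sq_nonneg x, mul_nonneg hs (sq_nonneg x)]
    have h4 : c * (a + 1) ≤ T * (s ^ 2 + ((k : ℝ) + 1) ^ 2) := by
      have h5 : (a + k + 1) * (a + k + 2) ≤ 4 * (s ^ 2 + ((k : ℝ) + 1) ^ 2) := by
        rw [hss]
        nlinarith [sq_nonneg (a - (k + 1)), mul_nonneg hs hk]
      have h6 : 0 < (a + k + 1) * (a + k + 2) := by positivity
      have h7 : 1 ≤ 4 * (s ^ 2 + ((k : ℝ) + 1) ^ 2) / ((a + k + 1) * (a + k + 2)) := by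
        rw [le_div_iff₀ h6]; linarith
      have h8 : T * (s ^ 2 + ((k : ℝ) + 1) ^ 2) =
          c * (a + 1) * (4 * (s ^ 2 + ((k : ℝ) + 1) ^ 2) / ((a + k + 1) * (a + k + 2))) := by
        rw [hT]; ring
      rw [h8]
      exact le_mul_of_one_le_right (by positivity) h7
    nlinarith
  calc (s + x) ^ 2 + ((k : ℝ) + 1) ^ 2 ≤ (T + 1) * (s ^ 2 + ((k : ℝ) + 1) ^ 2) := h2
    _ ≤ Real.exp T * (s ^ 2 + ((k : ℝ) + 1) ^ 2) := by gcongr

lemma telescope (a : ℝ) (K : ℕ) :
    ∑ k ∈ Finset.range K, (1 / (a + k + 1) - 1 / (a + k + 2)) = 1 / (a + 1) - 1 / (a + K + 1) := by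
  induction K with
  | zero => simp
  | succ K ih =>
    rw [Finset.sum_range_succ, ih]
    push_cast
    ring

/-- The weight controlling the translation of block `n`. -/
noncomputable def wt (a : ℕ → ℝ) (n : ℕ) (t : ℝ) : ℝ := 2 ^ n / (|t - a n| + 2 ^ n + 1)

lemma blk_shift (ha : IsSp a) (n : ℕ) (t x : ℝ) :
    ‖blk a full n ((t + x : ℝ) : ℂ)‖ ^ 2 ≤
      Real.exp (4 * (2 * |x| + x ^ 2) * wt a n t) * ‖blk a full n (t : ℂ)‖ ^ 2 := by
  set s : ℝ := t - a n with hs
  have h1 : ∀ y : ℝ, ‖blk a full n (y : ℂ)‖ ^ 2 =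
      ∏ k ∈ Finset.range (2 ^ n), (((y - a n) ^ 2 + ((k : ℝ) + 1) ^ 2) / ‖root a n k‖ ^ 2) := by
    intro y
    rw [norm_blk ha, ← Finset.prod_pow]
    apply Finset.prod_congr rfl
    intro k _
    rw [div_pow, normSq_sub_root]
    simp
  rw [h1, h1]
  have h2 : 4 * (2 * |x| + x ^ 2) * wt a n t =
      ∑ k ∈ Finset.range (2 ^ n), (4 * (2 * |x| + x ^ 2) * (|s| + 1) *
        (1 / (|s| + k + 1) - 1 / (|s| + k + 2))) := by
    rw [← Finset.mul_sum, telescope, wt, ← hs]
    have := abs_nonneg s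
    push_cast
    field_simp
    ring
  rw [h2, Real.exp_sum, ← Finset.prod_mul_distrib]
  apply Finset.prod_le_prod
  · intro k _; positivity
  · intro k _
    have h3 := factor_shift s x k
    rw [← mul_div_assoc]
    apply div_le_div_of_nonneg_right _ (by positivity)
    have h4 : t + x - a n = s + x := by rw [hs]; ring
    rw [h4]
    exact h3

lemma wt_le_one (n : ℕ) (t : ℝ) : wt a n t ≤ 1 := by
  unfold wt
  rw [div_le_one (by positivity)]
  have := abs_nonneg (t - a n)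
  linarith

lemma wt_le (ha : IsSp a) (n : ℕ) (t : ℝ) (h : a n / 2 ≤ |t - a n|) :
    wt a n t ≤ 2 * (1 / 2) ^ n := by
  unfold wt
  have h4 : (4 : ℝ) ^ n = 2 ^ n * 2 ^ n := by rw [← mul_pow]; norm_num
  have h2 : (0 : ℝ) < 2 ^ n := by positivity
  have hge := ha.ge n
  rw [div_le_iff₀ (by positivity), one_div, inv_pow]
  have h5 : 2 * ((2 : ℝ) ^ n)⁻¹ * (|t - a n| + 2 ^ n + 1) ≥
      2 * ((2 : ℝ) ^ n)⁻¹ * (2 ^ n * 2 ^ n / 2) := by
    apply mul_le_mul_of_nonneg_left _ (by positivity)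
    rw [h4] at hge
    linarith
  have h6 : 2 * ((2 : ℝ) ^ n)⁻¹ * (2 ^ n * 2 ^ n / 2) = 2 ^ n := by
    field_simp
  linarith

lemma IsSp.mono_lt (ha : IsSp a) {i j : ℕ} (h : i < j) : 4 * a i ≤ a j := by
  induction j, h using Nat.le_induction with
  | base => exact ha.four i
  | succ j hj ih =>
    have := ha.four j
    have := ha.pos j
    linarith

lemma wt_sum_le (ha : IsSp a) (t : ℝ) (N : ℕ) : ∑ n ∈ Finset.range N, wt a n t ≤ 5 := by
  classical
  have h1 : ∀ n ∈ Finset.range N, wt a n t ≤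
      2 * (1 / 2) ^ n + (if |t - a n| < a n / 2 then 1 else 0) := by
    intro n _
    split_ifs with h
    · have := wt_le_one (a := a) n t
      have h2 : (0 : ℝ) ≤ 2 * (1 / 2) ^ n := by positivity
      linarith
    · have := wt_le ha n t (not_lt.mp h)
      linarith
  refine (Finset.sum_le_sum h1).trans ?_
  rw [Finset.sum_add_distrib, ← Finset.mul_sum]
  have h2 := geom_half_le N
  have h3 : ∑ n ∈ Finset.range N, (if |t - a n| < a n / 2 then (1 : ℝ) else 0) ≤ 1 := by
    rw [← Finset.sum_filter, Finset.sum_const, nsmul_eq_mul, mul_one]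
    have : (Finset.filter (fun n => |t - a n| < a n / 2) (Finset.range N)).card ≤ 1 := by
      rw [Finset.card_le_one]
      have aux : ∀ i j : ℕ, i < j → |t - a i| < a i / 2 → |t - a j| < a j / 2 →
          False := by
        intro i j hij hi hj
        rw [abs_lt] at hi hj
        have h5 := ha.mono_lt hij
        have h6 := ha.pos i
        linarith [hi.2, hj.1]
      intro i hi j hj
      rw [Finset.mem_filter] at hi hj
      rcases lt_trichotomy i j with h | h | h
      · exact (aux i j h hi.2 hj.2).elim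
      · exact h
      · exact (aux j i h hj.2 hi.2).elim
    exact_mod_cast this
  linarith

lemma g_shift (ha : IsSp a) (t x : ℝ) :
    ‖g a full ((t + x : ℝ) : ℂ)‖ ^ 2 ≤
      Real.exp (20 * (2 * |x| + x ^ 2)) * ‖g a full (t : ℂ)‖ ^ 2 := by
  have h1 := (g_norm_tendsto ha adm_full ((t + x : ℝ) : ℂ)).pow 2
  have h2 := ((g_norm_tendsto ha adm_full (t : ℂ)).pow 2).const_mul
    (Real.exp (20 * (2 * |x| + x ^ 2)))
  refine le_of_tendsto_of_tendsto' h1 h2 ?_
  intro N
  rw [← Finset.prod_pow, ← Finset.prod_pow]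
  have hc : 0 ≤ 2 * |x| + x ^ 2 := by positivity
  calc ∏ n ∈ Finset.range N, ‖blk a full n ((t + x : ℝ) : ℂ)‖ ^ 2
      ≤ ∏ n ∈ Finset.range N, (Real.exp (4 * (2 * |x| + x ^ 2) * wt a n t) *
          ‖blk a full n (t : ℂ)‖ ^ 2) := by
        apply Finset.prod_le_prod
        · intro n _; positivity
        · intro n _; exact blk_shift ha n t x
    _ = Real.exp (4 * (2 * |x| + x ^ 2) * ∑ n ∈ Finset.range N, wt a n t) *
          ∏ n ∈ Finset.range N, ‖blk a full n (t : ℂ)‖ ^ 2 := by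
        rw [Finset.prod_mul_distrib, ← Real.exp_sum, Finset.mul_sum]
    _ ≤ _ := by
        apply mul_le_mul_of_nonneg_right _ (Finset.prod_nonneg (fun n _ => by positivity))
        apply Real.exp_le_exp.mpr
        have := wt_sum_le ha t N
        nlinarith

/-- Lower bound on the imaginary translate. -/
lemma blk_up (ha : IsSp a) (n : ℕ) (t : ℝ) :
    (((t - a n) ^ 2 + ((2 : ℝ) ^ n + 1) ^ 2) / ((t - a n) ^ 2 + 1)) *
      ‖blk a full n (t : ℂ)‖ ^ 2 = ‖blk a full n ((t : ℂ) + I)‖ ^ 2 := by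
  have h1 : ‖blk a full n (t : ℂ)‖ ^ 2 =
      ∏ k ∈ Finset.range (2 ^ n), (((t - a n) ^ 2 + ((k : ℝ) + 1) ^ 2) / ‖root a n k‖ ^ 2) := by
    rw [norm_blk ha, ← Finset.prod_pow]
    apply Finset.prod_congr rfl
    intro k _
    rw [div_pow, normSq_sub_root]
    simp
  have h2 : ‖blk a full n ((t : ℂ) + I)‖ ^ 2 =
      ∏ k ∈ Finset.range (2 ^ n), (((t - a n) ^ 2 + ((k : ℝ) + 2) ^ 2) / ‖root a n k‖ ^ 2) := by
    rw [norm_blk ha, ← Finset.prod_pow]
    apply Finset.prod_congr rfl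
    intro k _
    rw [div_pow, normSq_sub_root]
    simp
    ring_nf
  rw [h1, h2, Finset.prod_div_distrib, Finset.prod_div_distrib, ← mul_div_assoc]
  congr 1
  have h3 : ∀ K : ℕ, (((t - a n) ^ 2 + ((K : ℝ) + 1) ^ 2) / ((t - a n) ^ 2 + 1)) *
      ∏ k ∈ Finset.range K, ((t - a n) ^ 2 + ((k : ℝ) + 1) ^ 2) =
      ∏ k ∈ Finset.range K, ((t - a n) ^ 2 + ((k : ℝ) + 2) ^ 2) := by
    intro K
    induction K with
    | zero =>
      have h0 : (t - a n) ^ 2 + 1 ≠ 0 := by positivity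
      simp [div_self h0]
    | succ K ih =>
      rw [Finset.prod_range_succ, Finset.prod_range_succ, ← ih]
      push_cast
      ring
  have h4 := h3 (2 ^ n)
  push_cast at h4
  exact h4

lemma blk_up_ge (ha : IsSp a) (n : ℕ) (t : ℝ) (h0 : a n ≤ t) (h1 : t ≤ a n + 1) :
    (4 : ℝ) ^ n / 2 * ‖blk a full n (t : ℂ)‖ ^ 2 ≤ ‖blk a full n ((t : ℂ) + I)‖ ^ 2 := by
  rw [← blk_up ha]
  apply mul_le_mul_of_nonneg_right _ (by positivity)
  have h4 : (4 : ℝ) ^ n = 2 ^ n * 2 ^ n := by rw [← mul_pow]; norm_num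
  have h2 : (0 : ℝ) < 2 ^ n := by positivity
  have h3 : (t - a n) ^ 2 ≤ 1 := by nlinarith
  rw [le_div_iff₀ (by positivity)]
  have h5 : (4 : ℝ) ^ n / 2 * ((t - a n) ^ 2 + 1) ≤ 4 ^ n / 2 * 2 := by
    apply mul_le_mul_of_nonneg_left _ (by positivity)
    linarith
  nlinarith [sq_nonneg (t - a n)]

lemma g_up_ge (ha : IsSp a) (n : ℕ) (t : ℝ) (h0 : a n ≤ t) (h1 : t ≤ a n + 1) :
    (4 : ℝ) ^ n / 2 * ‖g a full (t : ℂ)‖ ^ 2 ≤ ‖g a full ((t : ℂ) + I)‖ ^ 2 := by
  have h2 := (g_norm_tendsto ha adm_full ((t : ℂ) + I)).pow 2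
  have h3 := ((g_norm_tendsto ha adm_full (t : ℂ)).pow 2).const_mul ((4 : ℝ) ^ n / 2)
  refine le_of_tendsto_of_tendsto h3 h2 ?_
  filter_upwards [eventually_gt_atTop n] with N hN
  have hmem : n ∈ Finset.range N := Finset.mem_range.mpr hN
  rw [← Finset.prod_pow, ← Finset.prod_pow, ← Finset.mul_prod_erase _ _ hmem,
    ← Finset.mul_prod_erase _ _ hmem, ← mul_assoc]
  apply mul_le_mul (blk_up_ge ha n t h0 h1) _ (Finset.prod_nonneg (fun n _ => by positivity))
    (by positivity)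
  apply Finset.prod_le_prod
  · intro m _; positivity
  · intro m _
    apply pow_le_pow_left₀ (norm_nonneg _)
    apply norm_blk_le ha
    intro k
    apply dist_root_le_of
    · simp
    · have hk : (0 : ℝ) ≤ k := Nat.cast_nonneg k
      simp
      rw [abs_of_nonneg (by linarith), abs_of_nonneg (by linarith)]
      linarith

/-- removing one root -/
lemma g_cut (ha : IsSp a) (m : ℕ) (z : ℂ) :
    g a full z = (1 + -(z / root a m 0)) * g a (cut m) z := by
  have h1 : HasProd (fun n => if n = m then (1 + -(z / root a m 0)) else 1)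
      (1 + -(z / root a m 0)) := hasProd_ite_eq m _
  have h2 := h1.mul (g_hasProd ha (adm_cut m) z)
  refine (g_hasProd ha adm_full z).unique ?_
  convert h2 using 1
  funext n
  by_cases h : n = m
  · subst h
    simp only [if_true]
    unfold blk full cut
    rw [if_pos rfl, Finset.mul_prod_erase _ (fun k => (1 + -(z / root a n k)))
      (Finset.mem_range.2 (by positivity))]
  · simp only [if_neg h, one_mul]
    unfold blk full cut
    rw [if_neg h]

end Pool.Agent.Y285.TB
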