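import Pool.Agent.Y285.TB.Prod

open Filter Topology MeasureTheory Complex
open scoped ComplexConjugate ENNReal

namespace Pool.Agent.Y285.TB

lemma bounded_boundedType (f : ℂ → ℂ) (hd : DifferentiableOn ℂ f upperHalf)
    (hb : ∀ z ∈ upperHalf, ‖f z‖ ≤ 1) : BoundedType f := by
  refine ⟨f, fun _ => 1, hd, differentiableOn_const _, ⟨1, hb⟩, ⟨1, fun z _ => by simp⟩,
    ⟨I, by simp [upperHalf], one_ne_zero⟩, fun z _ => by simp⟩

lemma bounded_meanType (f : ℂ → ℂ) (hb : ∀ z ∈ upperHalf, ‖f z‖ ≤ 1) : meanType f ≤ 0 := by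
  unfold meanType
  apply Filter.limsup_le_of_le
  · isBoundedDefault
  filter_upwards [eventually_gt_atTop (0 : ℝ)] with y hy
  have h1 : ‖f (y * I)‖ ≤ 1 := hb _ (by simpa [upperHalf] using hy)
  have h2 : ‖f (y * I)‖ₑ ≤ 1 := by
    rw [← ofReal_norm, ENNReal.ofReal_le_one]
    exact h1
  have h3 : ENNReal.log ‖f (y * I)‖ₑ ≤ 0 := by
    rw [← ENNReal.log_one]
    exact ENNReal.log_monotone h2
  have h4 : (0 : EReal) ≤ ((y⁻¹ : ℝ) : EReal) := by
    exact_mod_cast (inv_nonneg.mpr hy.le)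
  calc ((y⁻¹ : ℝ) : EReal) * ENNReal.log ‖f (y * I)‖ₑ ≤ ((y⁻¹ : ℝ) : EReal) * 0 :=
        mul_le_mul_of_nonneg_left h3 h4
    _ = 0 := mul_zero _

lemma isOpen_upperHalf : IsOpen upperHalf := isOpen_lt continuous_const Complex.continuous_im

lemma norm_add_I_ge (z : ℂ) (hz : 0 ≤ z.im) : 1 ≤ ‖z + I‖ := by
  have := Complex.abs_im_le_norm (z + I)
  simp at this
  rw [abs_of_nonneg (by linarith)] at this
  linarith

lemma star_differentiable (F : ℂ → ℂ) (hF : Differentiable ℂ F) : Differentiable ℂ (star' F) := by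
  intro z
  unfold star'
  have := (hF (conj z)).hasDerivAt
  have h2 := HasDerivAt.conj_conj this
  simpa [Function.comp_def] using h2.differentiableAt


variable {a : ℕ → ℝ}

/-- The structure function. -/
noncomputable def EE (a : ℕ → ℝ) (z : ℂ) : ℂ := (z + I) * g a full z

/-- The terms of the series of the bad element. -/
noncomputable def hterm (a : ℕ → ℝ) (n : ℕ) (z : ℂ) : ℂ :=
  (((1 / 2 : ℝ) ^ (n + 1) : ℝ) : ℂ) * (-(g a (cut n) z / root a n 0))

/-- The bad element. -/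
noncomputable def FF (a : ℕ → ℝ) (z : ℂ) : ℂ := (z + I) * ∑' n, hterm a n z

/-- The quotient `F / E`. -/
noncomputable def RR (a : ℕ → ℝ) (z : ℂ) : ℂ :=
  ∑' n, (((1 / 2 : ℝ) ^ (n + 1) : ℝ) : ℂ) / (z - root a n 0)

lemma wsum : HasSum (fun n : ℕ => (1 / 2 : ℝ) ^ (n + 1)) 1 := by
  have h := hasSum_geometric_two.mul_left (1 / 2)
  have e : (fun n : ℕ => (1 / 2 : ℝ) ^ (n + 1)) = fun n : ℕ => 1 / 2 * (1 / 2 : ℝ) ^ n := by
    funext n
    rw [pow_succ']
  rw [e]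
  have e2 : (1 / 2 : ℝ) * 2 = 1 := by norm_num
  rw [e2] at h
  exact h

lemma EE_differentiable (ha : IsSp a) : Differentiable ℂ (EE a) := by
  unfold EE
  exact (differentiable_id.add_const _).mul (g_differentiable ha adm_full)

lemma EE_ne_zero (ha : IsSp a) (z : ℂ) (hz : 0 ≤ z.im) : EE a z ≠ 0 := by
  unfold EE
  apply mul_ne_zero _ (g_ne_zero ha adm_full z hz)
  intro h
  have := congrArg Complex.im h
  simp at this
  linarith

lemma norm_w (n : ℕ) : ‖(((1 / 2 : ℝ) ^ (n + 1) : ℝ) : ℂ)‖ = (1 / 2 : ℝ) ^ (n + 1) := by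
  rw [Complex.norm_real, Real.norm_of_nonneg (by positivity)]

lemma hterm_norm (ha : IsSp a) (n : ℕ) (z : ℂ) :
    ‖hterm a n z‖ ≤ (1 / 2 : ℝ) ^ (n + 1) * Real.exp (2 * ‖z‖) := by
  unfold hterm
  rw [norm_mul, norm_w, norm_neg, norm_div]
  apply mul_le_mul_of_nonneg_left _ (by positivity)
  have h1 := g_growth ha (adm_cut n) z
  have h2 : 1 ≤ ‖root a n 0‖ := (ha.one_le n).trans (root_norm_ge ha n 0)
  exact (div_le_self (norm_nonneg _) h2).trans h1

lemma hterm_summable (ha : IsSp a) (z : ℂ) : Summable (fun n => hterm a n z) :=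
  Summable.of_norm_bounded (wsum.summable.mul_right _) fun n => hterm_norm ha n z

lemma FF_differentiable (ha : IsSp a) : Differentiable ℂ (FF a) := by
  unfold FF
  refine (differentiable_id.add_const _).mul ?_
  intro z
  have h := differentiableOn_tsum_of_summable_norm (F := hterm a)
    (u := fun n => (1 / 2 : ℝ) ^ (n + 1) * Real.exp (2 * (‖z‖ + 1)))
    (wsum.summable.mul_right _) (U := Metric.ball 0 (‖z‖ + 1)) (fun n => ?_) Metric.isOpen_ball
    (fun n w hw => ?_)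
  · exact h.differentiableAt (Metric.isOpen_ball.mem_nhds (by simp))
  · unfold hterm
    exact (((g_differentiable ha (adm_cut n)).div_const _).neg.const_mul _).differentiableOn
  · refine (hterm_norm ha n w).trans ?_
    have := (mem_ball_zero_iff.1 hw).le
    gcongr

/-- `F / E` on the closed upper half plane -/
lemma term_eq (ha : IsSp a) (n : ℕ) (z : ℂ) (hz : 0 ≤ z.im) :
    hterm a n z = g a full z * ((((1 / 2 : ℝ) ^ (n + 1) : ℝ) : ℂ) / (z - root a n 0)) := by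
  have h1 := g_cut ha n z
  have h2 := sub_root_ne (a := a) n 0 z hz
  have h3 := root_ne ha n 0
  rw [h1, factor_eq ha]
  unfold hterm
  field_simp

lemma quot_eq (ha : IsSp a) (z : ℂ) (hz : 0 ≤ z.im) : FF a z / EE a z = RR a z := by
  have h1 := g_ne_zero ha adm_full z hz
  have h2 : z + I ≠ 0 := by
    intro h
    have := norm_add_I_ge z hz
    rw [h, norm_zero] at this
    linarith
  unfold FF EE RR
  have h3 : ∑' n, hterm a n z = g a full z * ∑' n, (((1 / 2 : ℝ) ^ (n + 1) : ℝ) : ℂ) / (z - root a n 0) := by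
    rw [← tsum_mul_left]
    exact tsum_congr fun n => term_eq ha n z hz
  rw [h3]
  field_simp

lemma one_le_dist (n : ℕ) (z : ℂ) (hz : 0 ≤ z.im) : 1 ≤ ‖z - root a n 0‖ := by
  have h := Complex.abs_im_le_norm (z - root a n 0)
  have e : (z - root a n 0).im = z.im + 1 := by simp [root]
  rw [e, abs_of_nonneg (by linarith)] at h
  linarith

lemma RR_term_norm (n : ℕ) (z : ℂ) (hz : 0 ≤ z.im) :
    ‖(((1 / 2 : ℝ) ^ (n + 1) : ℝ) : ℂ) / (z - root a n 0)‖ ≤ (1 / 2 : ℝ) ^ (n + 1) := by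
  rw [norm_div, norm_w]
  exact div_le_self (by positivity) (one_le_dist n z hz)

lemma RR_summable (z : ℂ) (hz : 0 ≤ z.im) :
    Summable (fun n => (((1 / 2 : ℝ) ^ (n + 1) : ℝ) : ℂ) / (z - root a n 0)) :=
  Summable.of_norm_bounded wsum.summable fun n => RR_term_norm n z hz

lemma RR_norm (z : ℂ) (hz : 0 ≤ z.im) : ‖RR a z‖ ≤ 1 := by
  unfold RR
  exact tsum_of_norm_bounded wsum fun n => RR_term_norm n z hz

/-- the conjugate -/
lemma star_norm (ha : IsSp a) (z : ℂ) (hz : 0 < z.im) : ‖star' (FF a) z‖ ≤ ‖EE a z‖ := by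
  unfold star' FF EE
  rw [Complex.norm_conj, norm_mul, norm_mul]
  have h1 : ‖conj z + I‖ ≤ ‖z + I‖ := by
    apply le_of_sq_le_sq _ (norm_nonneg _)
    rw [← Complex.normSq_eq_norm_sq, ← Complex.normSq_eq_norm_sq, Complex.normSq_apply,
      Complex.normSq_apply]
    simp
    nlinarith
  have h2 : ‖∑' n, hterm a n (conj z)‖ ≤ 1 * ‖g a full z‖ := by
    refine tsum_of_norm_bounded (wsum.mul_right ‖g a full z‖) fun n => ?_
    have h3 : ‖hterm a n (conj z)‖ ≤ ‖hterm a n z‖ := by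
      unfold hterm
      rw [norm_mul, norm_mul, norm_neg, norm_neg, norm_div, norm_div]
      have := g_conj_le ha (adm_cut n) z hz
      gcongr
    refine h3.trans ?_
    rw [term_eq ha n z hz.le, norm_mul, mul_comm]
    exact mul_le_mul_of_nonneg_right (RR_term_norm n z hz.le) (norm_nonneg _)
  rw [one_mul] at h2
  exact mul_le_mul h1 h2 (norm_nonneg _) (norm_nonneg _)

/-- square integrability -/
lemma RR_sq (t : ℝ) : ‖RR a (t : ℂ)‖ₑ ^ 2 ≤
    ∑' n, ENNReal.ofReal ((1 / 2 : ℝ) ^ (n + 1) * ((1 + (t - a n) ^ 2)⁻¹)) := by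
  have him : 0 ≤ ((t : ℂ)).im := by simp
  have hx : ∀ n, ‖(((1 / 2 : ℝ) ^ (n + 1) : ℝ) : ℂ) / ((t : ℂ) - root a n 0)‖ ^ 2 =
      (1 / 2 : ℝ) ^ (n + 1) * ((1 / 2 : ℝ) ^ (n + 1) * ((1 + (t - a n) ^ 2)⁻¹)) := by
    intro n
    rw [norm_div, norm_w, div_pow, normSq_sub_root]
    simp only [ofReal_re, ofReal_im, Nat.cast_zero, zero_add, one_pow]
    rw [div_eq_mul_inv, add_comm ((t - a n) ^ 2)]
    ring
  have hsum : Summable (fun n => (1 / 2 : ℝ) ^ (n + 1) * ((1 + (t - a n) ^ 2)⁻¹)) := by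
    refine Summable.of_nonneg_of_le (fun n => by positivity) (fun n => ?_) wsum.summable
    have : (1 + (t - a n) ^ 2)⁻¹ ≤ 1 := inv_le_one_of_one_le₀ (by nlinarith [sq_nonneg (t - a n)])
    have h0 : (0:ℝ) < (1 / 2) ^ (n + 1) := by positivity
    nlinarith
  have hle : ‖RR a (t : ℂ)‖ ^ 2 ≤ ∑' n, (1 / 2 : ℝ) ^ (n + 1) * ((1 + (t - a n) ^ 2)⁻¹) := by
    have h1 := ((RR_summable (a := a) (t : ℂ) him).hasSum.tendsto_sum_nat.norm).pow 2
    refine le_of_tendsto' h1 fun N => ?_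
    have h2 : ‖∑ n ∈ Finset.range N, (((1 / 2 : ℝ) ^ (n + 1) : ℝ) : ℂ) / ((t : ℂ) - root a n 0)‖ ^ 2 ≤
        (∑ n ∈ Finset.range N, ‖(((1 / 2 : ℝ) ^ (n + 1) : ℝ) : ℂ) / ((t : ℂ) - root a n 0)‖) ^ 2 :=
      pow_le_pow_left₀ (norm_nonneg _) (norm_sum_le _ _) 2
    have h3 := Finset.sum_sq_le_sum_mul_sum_of_sq_le_mul (Finset.range N)
      (r := fun n => ‖(((1 / 2 : ℝ) ^ (n + 1) : ℝ) : ℂ) / ((t : ℂ) - root a n 0)‖)
      (f := fun n => (1 / 2 : ℝ) ^ (n + 1))
      (g := fun n => (1 / 2 : ℝ) ^ (n + 1) * ((1 + (t - a n) ^ 2)⁻¹))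
      (fun n _ => by positivity) (fun n _ => by positivity) (fun n _ => (hx n).le)
    have h4 : ∑ n ∈ Finset.range N, (1 / 2 : ℝ) ^ (n + 1) ≤ 1 := by
      exact (wsum.summable.sum_le_tsum _ fun n _ => by positivity).trans (le_of_eq wsum.tsum_eq)
    have h5 : ∑ n ∈ Finset.range N, (1 / 2 : ℝ) ^ (n + 1) * ((1 + (t - a n) ^ 2)⁻¹) ≤
        ∑' n, (1 / 2 : ℝ) ^ (n + 1) * ((1 + (t - a n) ^ 2)⁻¹) :=
      hsum.sum_le_tsum _ fun n _ => by positivity
    have h6 : 0 ≤ ∑ n ∈ Finset.range N, (1 / 2 : ℝ) ^ (n + 1) * ((1 + (t - a n) ^ 2)⁻¹) :=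
      Finset.sum_nonneg fun n _ => by positivity
    calc _ ≤ _ := h2
      _ ≤ _ := h3
      _ ≤ 1 * ∑ n ∈ Finset.range N, (1 / 2 : ℝ) ^ (n + 1) * ((1 + (t - a n) ^ 2)⁻¹) :=
          mul_le_mul_of_nonneg_right h4 h6
      _ ≤ _ := by rw [one_mul]; exact h5
  rw [← ENNReal.ofReal_tsum_of_nonneg (fun n => by positivity) hsum, ← ofReal_norm,
    ← ENNReal.ofReal_pow (norm_nonneg _)]
  exact ENNReal.ofReal_le_ofReal hle

lemma normSq_FF (ha : IsSp a) : normSq (EE a) (FF a) < ⊤ := by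
  unfold normSq
  have h1 : ∀ t : ℝ, ‖FF a (t : ℂ) / EE a (t : ℂ)‖ₑ ^ 2 ≤
      ∑' n, ENNReal.ofReal ((1 / 2 : ℝ) ^ (n + 1) * ((1 + (t - a n) ^ 2)⁻¹)) := by
    intro t
    rw [quot_eq ha (t : ℂ) (by simp)]
    exact RR_sq t
  refine lt_of_le_of_lt (lintegral_mono h1) ?_
  rw [lintegral_tsum (fun n => by fun_prop)]
  set C : ℝ≥0∞ := ∫⁻ t : ℝ, ENNReal.ofReal ((1 + t ^ 2)⁻¹) with hC
  have hCf : C < ⊤ := by
    have h3 := integrable_inv_one_add_sq.hasFiniteIntegral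
    rw [hasFiniteIntegral_iff_ofReal] at h3
    · exact h3
    · filter_upwards with t
      positivity
  have h2 : ∀ n : ℕ, ∫⁻ t : ℝ, ENNReal.ofReal ((1 / 2 : ℝ) ^ (n + 1) * ((1 + (t - a n) ^ 2)⁻¹)) =
      ENNReal.ofReal ((1 / 2 : ℝ) ^ (n + 1)) * C := by
    intro n
    have h3 : ∀ t : ℝ, ENNReal.ofReal ((1 / 2 : ℝ) ^ (n + 1) * ((1 + (t - a n) ^ 2)⁻¹)) =
        ENNReal.ofReal ((1 / 2 : ℝ) ^ (n + 1)) * ENNReal.ofReal ((1 + (t - a n) ^ 2)⁻¹) :=
      fun t => ENNReal.ofReal_mul (by positivity)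
    simp_rw [h3]
    rw [lintegral_const_mul _ (by fun_prop), hC]
    congr 1
    exact lintegral_sub_right_eq_self (fun t : ℝ => ENNReal.ofReal ((1 + t ^ 2)⁻¹)) (a n)
  simp_rw [h2]
  rw [ENNReal.tsum_mul_right, ← ENNReal.ofReal_tsum_of_nonneg (fun n => by positivity) wsum.summable,
    wsum.tsum_eq, ENNReal.ofReal_one, one_mul]
  exact hCf

lemma FF_inH (ha : IsSp a) : InH (EE a) (FF a) := by
  have hd1 : DifferentiableOn ℂ (fun z => FF a z / EE a z) upperHalf := by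
    apply DifferentiableOn.div (FF_differentiable ha).differentiableOn
      (EE_differentiable ha).differentiableOn
    intro z hz
    exact EE_ne_zero ha z (le_of_lt hz)
  have hd2 : DifferentiableOn ℂ (fun z => star' (FF a) z / EE a z) upperHalf := by
    apply DifferentiableOn.div (star_differentiable _ (FF_differentiable ha)).differentiableOn
      (EE_differentiable ha).differentiableOn
    intro z hz
    exact EE_ne_zero ha z (le_of_lt hz)
  have hb1 : ∀ z ∈ upperHalf, ‖FF a z / EE a z‖ ≤ 1 := by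
    intro z hz
    rw [quot_eq ha z (le_of_lt hz)]
    exact RR_norm z (le_of_lt hz)
  have hb2 : ∀ z ∈ upperHalf, ‖star' (FF a) z / EE a z‖ ≤ 1 := by
    intro z hz
    rw [norm_div]
    exact div_le_one_of_le₀ (star_norm ha z hz) (norm_nonneg _)
  exact ⟨FF_differentiable ha, normSq_FF ha, bounded_boundedType _ hd1 hb1,
    bounded_meanType _ hb1, bounded_boundedType _ hd2 hb2, bounded_meanType _ hb2⟩

/-- lower bound of `F / E` above the block -/
lemma RR_up (n : ℕ) (t : ℝ) (h0 : a n ≤ t) (h1 : t ≤ a n + 1) :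
    (1 / 2 : ℝ) ^ (n + 1) * (2 / 5) ≤ ‖RR a ((t : ℂ) + I)‖ := by
  have him : 0 ≤ ((t : ℂ) + I).im := by simp
  have hs := (RR_summable (a := a) ((t : ℂ) + I) him)
  have h2 : (-(RR a ((t : ℂ) + I))).im = ∑' m, (1 / 2 : ℝ) ^ (m + 1) * (2 / ((t - a m) ^ 2 + 4)) := by
    unfold RR
    rw [Complex.neg_im, Complex.im_tsum hs, ← tsum_neg]
    refine tsum_congr fun m => ?_
    rw [Complex.div_im, Complex.normSq_apply]
    simp only [ofReal_im, ofReal_re, zero_mul, zero_div, zero_sub, neg_neg, root, sub_re, add_re,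
      I_re, add_zero, sub_im, add_im, I_im, zero_add, Nat.cast_zero, sub_neg_eq_add]
    have h5 : (t - a m) * (t - a m) + (1 + 1) * (1 + 1) = (t - a m) ^ 2 + 4 := by ring
    rw [h5, one_add_one_eq_two, mul_div_assoc]
  have hs2 : Summable (fun m => (1 / 2 : ℝ) ^ (m + 1) * (2 / ((t - a m) ^ 2 + 4))) := by
    refine Summable.of_nonneg_of_le (fun n => by positivity) (fun n => ?_) wsum.summable
    have : 2 / ((t - a n) ^ 2 + 4) ≤ 1 := by
      rw [div_le_one (by positivity)]; nlinarith [sq_nonneg (t - a n)]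
    have h0 : (0:ℝ) < (1 / 2) ^ (n + 1) := by positivity
    nlinarith
  have h3 := hs2.le_tsum n fun m _ => by positivity
  rw [← h2] at h3
  have h4 := Complex.im_le_norm (-(RR a ((t : ℂ) + I)))
  rw [norm_neg] at h4
  refine le_trans ?_ (h3.trans h4)
  gcongr ?_ * ?_
  apply div_le_div_of_nonneg_left (by norm_num) (by positivity)
  nlinarith

end Pool.Agent.Y285.TB
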